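import Mathlib
import Pool.Agent.Helper24.Preserve
import Pool.Agent.Helper24.Concrete

/-!
# A forcing that makes `μ → (μ, ω + 1)²` fail

For every regular uncountable cardinal `κ` and every cardinal `μ` of cofinality `κ` with
`2 ^ κ < μ` we construct a `< κ`-closed notion of forcing `P`, all of whose antichains have size
at most `2 ^ κ`, and a `P`-name for a graph on `μ` which is forced to have no clique of order type
`ω + 1` (in particular no uncountable clique) and no independent set of cardinality `μ`.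

With `κ = ℵ₂` and `μ = ℵ_{ω₂}`, over a ground model of GCH, the forcing preserves `2 ^ ℵ₀ = ℵ₁`
and `ℵ_ξ ^ ℵ₀ < ℵ_{ω₂}` (no new functions with domain of size `< ℵ₂`, no cardinal above `2 ^ ℵ₂`
is collapsed), so this is the forcing behind the negated form of the question.

The conditions are in `Pool/Agent/Helper24/Cond.lean` and `Poset.lean`, the amalgamation in
`Amalg.lean`, the genericity argument in `Indep.lean`.
-/

set_option autoImplicit false

universe u

open Cardinal Pool.Agent.Helper24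

namespace Pool.Agent.Results.MP_f21527_lc.ForcedFailure

/-- For `κ` regular uncountable, `cf μ = κ` and `2 ^ κ < μ` there is a `< κ`-closed forcing with
antichains of size at most `2 ^ κ` that forces `μ ↛ (μ, ω + 1)²`, hence `μ ↛ (μ, ℵ₁)²`. -/
theorem result (κ μ : Cardinal.{u}) (hκ : κ.IsRegular) (hκ0 : ℵ₀ < κ) (hcof : μ.ord.cof = κ)
    (hμ : 2 ^ κ < μ) :
    ∃ (P : Type u) (_ : PartialOrder P) (G : GraphName P μ.ord.ToType),
      (ChainClosed P κ ∧ AntichainsLE P (2 ^ κ)) ∧
      (NoNewShortFunctions P κ ∧ NoCollapseAbove P (2 ^ κ)) ∧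
      (∀ (p : P) (c : FunName P (WithTop ℕ) μ.ord.ToType), ¬ ForcesIncreasingClique G p c) ∧
      (∀ (p : P) (X : Type u) (c : FunName P X μ.ord.ToType), ℵ₀ < #X → ¬ ForcesClique G p c) ∧
      (∀ (p : P) (X : Type u) (c : FunName P X μ.ord.ToType), μ ≤ #X →
        ¬ ForcesIndependent G p c) := by
  classical
  have hθ0 : ℵ₀ ≤ (2 ^ κ : Cardinal.{u}) := hκ0.le.trans (cantor κ).le
  have hμ0 : ℵ₀ ≤ μ := hθ0.trans hμ.le
  obtain ⟨B, blk, hB, hmono, hBb, hL⟩ := exists_blocks κ μ hcof
  have hR : #(RK κ) ≤ 2 ^ κ := by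
    rw [mk_RK]
    exact Order.succ_le_of_lt (cantor κ)
  have hBR : #(B → RK κ) ≤ 2 ^ κ := by
    rw [← power_def, hB]
    exact (power_le_power_right hR).trans (by rw [← power_mul, mul_eq_self hκ0.le])
  have hBc : #B ≤ 2 ^ κ := hB.le.trans (cantor κ).le
  have hRne : Nonempty (RK κ) := by
    rw [← mk_ne_zero_iff, mk_RK]
    exact (Order.succ_ne_bot κ)
  have : Nonempty μ.ord.ToType := by
    rw [← mk_ne_zero_iff, mk_toType, card_ord]
    exact (aleph0_pos.trans_le hμ0).ne'
  letI : OrderBot (RK κ) := WellFoundedLT.toOrderBot _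
  have hR1 : ∀ D : Set (RK κ), #D < κ → ∃ r, ∀ d ∈ D, d ≤ r := fun D hD =>
    RK_bound hκ0.le D hD
  have hcc : AntichainsLE (Cnd (RK κ) κ blk) (2 ^ κ) := cnd_antichainsLE hκ0.le hR hBR
  refine ⟨Cnd (RK κ) κ blk, inferInstance, gname (RK κ) κ blk,
    ⟨cnd_chainClosed hκ, hcc⟩,
    ⟨noNewShortFunctions (cnd_chainClosed hκ), noCollapseAbove hθ0 hcc⟩, ?_, ?_, ?_⟩
  · intro p c
    exact no_increasing hκ0 hκ hR1 hmono p c
  · intro p X c hX
    exact no_uncountable_clique hκ0 hκ hR1 hmono p c hX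
  · intro p X c hX
    exact no_independent hκ0 hR hBR hBc hBb hR1 (fun γ => RK_collapse hκ0.le γ) hμ hL p X c hX

end Pool.Agent.Results.MP_f21527_lc.ForcedFailure
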